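import Pool.Agent.X109.TG.Sweep

/-!
# Common hypercyclic vectors along the graph of the Takagi function

For all `a, b > 0` the family `e^x B × e^y B`, `(x, y)` on the translated Takagi graph
`{(a + t, b + T(t)) : t ∈ [0, 1]}`, has a common hypercyclic vector in `c₀ × c₀`
(real or complex).
-/

set_option autoImplicit false

open Filter Topology

namespace Pool.Agent.Results.MP_c0f49b_an.TakagiCommon

open Pool.Agent.H740R3.Dust

/-- The Takagi function `T(t) = ∑ 2^{-n} dist(2^n t, ℤ)`; here `|x - round x|` is the distance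
from `x` to the nearest integer. -/
noncomputable def takagi (t : ℝ) : ℝ :=
  ∑' n : ℕ, (1 / 2 : ℝ) ^ n * |2 ^ n * t - round (2 ^ n * t : ℝ)|

/-- Membership of `c₀`: the sequence tends to `0`. -/
def IsC0 {𝕜 : Type} [RCLike 𝕜] (x : ℕ → 𝕜) : Prop := Tendsto x atTop (𝓝 0)

/-- The Rolewicz operator `e^λ B`, with `B` the backward shift: `(e^λ B x)_n = e^λ x_{n+1}`. -/
noncomputable def rol {𝕜 : Type} [RCLike 𝕜] (lam : ℝ) (x : ℕ → 𝕜) : ℕ → 𝕜 :=
  fun n => ((Real.exp lam : ℝ) : 𝕜) * x (n + 1)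

/-- `(x, y)` is a hypercyclic vector of `e^λ B × e^μ B` on `c₀ × c₀`: every pair of null
sequences `(u, v)` is approximated, uniformly in the coordinates and to any precision, by some
iterate `k ≥ 0`. -/
def IsHypercyclicPair {𝕜 : Type} [RCLike 𝕜] (lam mu : ℝ) (x y : ℕ → 𝕜) : Prop :=
  ∀ u v : ℕ → 𝕜, IsC0 u → IsC0 v → ∀ η : ℝ, 0 < η → ∃ k : ℕ, ∀ n : ℕ,
    ‖(rol lam)^[k] x n - u n‖ < η ∧ ‖(rol mu)^[k] y n - v n‖ < η

/-- There is a common hypercyclic vector in `c₀ × c₀` for all operators `e^x B × e^y B` with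
`(x, y)` on the translate `{(a + t, b + T(t)) : t ∈ [0, 1]}` of the graph of the Takagi
function. -/
def CommonVector (𝕜 : Type) [RCLike 𝕜] (a b : ℝ) : Prop :=
  ∃ x y : ℕ → 𝕜, IsC0 x ∧ IsC0 y ∧
    ∀ t : ℝ, 0 ≤ t → t ≤ 1 → IsHypercyclicPair (a + t) (b + takagi t) x y

theorem rol_iterate {𝕜 : Type} [RCLike 𝕜] (lam : ℝ) (x : ℕ → 𝕜) (k n : ℕ) :
    (rol lam)^[k] x n = ((Real.exp (k * lam) : ℝ) : 𝕜) * x (n + k) := by
  induction k generalizing n with
  | zero => simp
  | succ k ih =>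
    rw [Function.iterate_succ_apply', rol, ih, ← mul_assoc, ← RCLike.ofReal_mul, ← Real.exp_add]
    have e1 : lam + k * lam = ((k + 1 : ℕ) : ℝ) * lam := by push_cast; ring
    have e2 : n + 1 + k = n + (k + 1) := by ring
    rw [e1, e2]

/-- The distance to the nearest integer. -/
noncomputable def dz (x : ℝ) : ℝ := |x - round x|

theorem dz_nonneg (x : ℝ) : 0 ≤ dz x := abs_nonneg _

theorem dz_le (x : ℝ) : dz x ≤ 1 / 2 := abs_sub_round x

theorem dz_lip (x y : ℝ) : |dz x - dz y| ≤ |x - y| := by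
  have key : ∀ x y : ℝ, dz x - dz y ≤ |x - y| := by
    intro x y
    have h1 : dz x ≤ |x - round y| := round_le x (round y)
    have h2 : |x - round y| ≤ |x - y| + |y - round y| := abs_sub_le _ _ _
    have h3 : dz y = |y - round y| := rfl
    linarith
  rw [abs_le]
  refine ⟨?_, key x y⟩
  have := key y x
  rw [abs_sub_comm] at this
  linarith

theorem term_bd (n : ℕ) (t : ℝ) :
    0 ≤ (1 / 2 : ℝ) ^ n * dz (2 ^ n * t) ∧
      (1 / 2 : ℝ) ^ n * dz (2 ^ n * t) ≤ (1 / 2 : ℝ) ^ n * (1 / 2) :=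
  ⟨mul_nonneg (by positivity) (dz_nonneg _), mul_le_mul_of_nonneg_left (dz_le _) (by positivity)⟩

theorem geo_half : Summable (fun n : ℕ => (1 / 2 : ℝ) ^ n * (1 / 2)) :=
  (summable_geometric_of_lt_one (by norm_num) (by norm_num)).mul_right _

theorem summ (t : ℝ) : Summable (fun n : ℕ => (1 / 2 : ℝ) ^ n * dz (2 ^ n * t)) :=
  Summable.of_nonneg_of_le (fun n => (term_bd n t).1) (fun n => (term_bd n t).2) geo_half

theorem takagi_eq (t : ℝ) : takagi t = ∑' n : ℕ, (1 / 2 : ℝ) ^ n * dz (2 ^ n * t) := rfl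

theorem takagi_nonneg (t : ℝ) : 0 ≤ takagi t := by
  rw [takagi_eq]; exact tsum_nonneg fun n => (term_bd n t).1

theorem takagi_le (t : ℝ) : takagi t ≤ 1 := by
  rw [takagi_eq]
  refine ((summ t).tsum_le_tsum (fun n => (term_bd n t).2) geo_half).trans ?_
  rw [tsum_mul_right, tsum_geometric_of_lt_one (by norm_num) (by norm_num)]
  norm_num

theorem takagi_mod (K : ℕ) (r r' : ℝ) :
    |takagi r - takagi r'| ≤ K * |r - r'| + (1 / 2 : ℝ) ^ K := by
  set f : ℕ → ℝ := fun n => (1 / 2 : ℝ) ^ n * dz (2 ^ n * r) - (1 / 2 : ℝ) ^ n * dz (2 ^ n * r')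
    with hf
  have hfs : Summable f := (summ r).sub (summ r')
  have h0 : takagi r - takagi r' = ∑' n, f n := by
    rw [takagi_eq, takagi_eq, ← (summ r).tsum_sub (summ r')]
  have h1 : ∀ n, |f n| ≤ |r - r'| := by
    intro n
    have e : f n = (1 / 2 : ℝ) ^ n * (dz (2 ^ n * r) - dz (2 ^ n * r')) := by rw [hf]; ring
    rw [e, abs_mul, abs_of_pos (by positivity)]
    calc (1 / 2 : ℝ) ^ n * |dz (2 ^ n * r) - dz (2 ^ n * r')|
        ≤ (1 / 2 : ℝ) ^ n * |2 ^ n * r - 2 ^ n * r'| :=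
          mul_le_mul_of_nonneg_left (dz_lip _ _) (by positivity)
      _ = ((1 / 2 : ℝ) ^ n * 2 ^ n) * |r - r'| := by
          rw [← mul_sub, abs_mul, abs_of_pos (show (0:ℝ) < 2 ^ n by positivity)]; ring
      _ = |r - r'| := by rw [← mul_pow]; norm_num
  have h2 : ∀ n, |f n| ≤ (1 / 2 : ℝ) ^ n * (1 / 2) := by
    intro n
    have a1 := term_bd n r
    have a2 := term_bd n r'
    rw [abs_le]
    constructor
    · show -((1 / 2 : ℝ) ^ n * (1 / 2)) ≤ _ - _
      linarith
    · show _ - _ ≤ (1 / 2 : ℝ) ^ n * (1 / 2)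
      linarith
  rw [h0, ← hfs.sum_add_tsum_nat_add K]
  refine (abs_add_le _ _).trans (add_le_add ?_ ?_)
  · calc |∑ i ∈ Finset.range K, f i| ≤ ∑ i ∈ Finset.range K, |f i| :=
          Finset.abs_sum_le_sum_abs _ _
      _ ≤ ∑ _i ∈ Finset.range K, |r - r'| := Finset.sum_le_sum fun i _ => h1 i
      _ = K * |r - r'| := by rw [Finset.sum_const, Finset.card_range, nsmul_eq_mul]
  · have hs : HasSum (fun i : ℕ => (1 / 2 : ℝ) ^ (i + K) * (1 / 2)) ((1 / 2 : ℝ) ^ K) := by
      have h3 : HasSum (fun i : ℕ => (1 / 2 : ℝ) ^ i) ((1 - 1 / 2)⁻¹) :=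
        hasSum_geometric_of_lt_one (by norm_num) (by norm_num)
      have h4 := h3.mul_right ((1 / 2 : ℝ) ^ K * (1 / 2))
      have e1 : (1 - 1 / 2 : ℝ)⁻¹ * ((1 / 2 : ℝ) ^ K * (1 / 2)) = (1 / 2 : ℝ) ^ K := by ring
      rw [e1] at h4
      refine h4.congr_fun ?_ |> id
      intro i
      rw [pow_add]; ring
    have h5 := tsum_of_norm_bounded hs (f := fun i => f (i + K)) (fun i => h2 (i + K))
    exact h5

/-- The complex case. -/
theorem complexCase (a b : ℝ) (ha : 0 < a) (hb : 0 < b) :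
    ∃ x y : ℕ → ℂ, IsC0 x ∧ IsC0 y ∧ ∀ t : ℝ, 0 ≤ t → t ≤ 1 →
      ∀ u v : ℕ → ℂ, IsC0 u → IsC0 v → ∀ η : ℝ, 0 < η → ∃ k : ℕ, ∀ n : ℕ,
        ‖((Real.exp ((k : ℝ) * (a + t)) : ℝ) : ℂ) * x (n + k) - u n‖ < η ∧
        ‖((Real.exp ((k : ℝ) * (b + takagi t)) : ℝ) : ℂ) * y (n + k) - v n‖ < η := by
  obtain ⟨x, y, hx, hy, H⟩ := X109.TG.main_gen
    {z | ∃ r, 0 ≤ r ∧ r ≤ 1 ∧ z = (a + r, b + takagi r)} (a + 1) (b + 1) (by linarith)
    (by linarith) (by
      rintro z ⟨r, hr0, hr1, rfl⟩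
      exact ⟨by show a + r ≤ a + 1; linarith,
        by show b + takagi r ≤ b + 1; linarith [takagi_le r]⟩)
    (fun t N => X109.TG.oneTask t ha hb (by linarith) (by linarith) (fun r => b + takagi r)
      (fun r => by linarith [takagi_nonneg r])
      (fun K r r' => by
        have e : b + takagi r - (b + takagi r') = takagi r - takagi r' := by ring
        show |b + takagi r - (b + takagi r')| ≤ _
        rw [e]; exact takagi_mod K r r') N)
  refine ⟨x, y, hx, hy, fun t ht0 ht1 u v hu hv η hη => ?_⟩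
  exact H (a + t, b + takagi t) ⟨t, ht0, ht1, rfl⟩ u v hu hv η hη

/-- For all `a, b > 0` the family `e^x B × e^y B`, with `(x, y)` running through the translate
`Γ_{a,b}` of the graph of the Takagi function, has a common hypercyclic vector in `c₀ × c₀`,
for real as well as for complex scalars. -/
theorem result : ∀ a b : ℝ, 0 < a → 0 < b → CommonVector ℝ a b ∧ CommonVector ℂ a b := by
  intro a b ha hb
  obtain ⟨x, y, hx, hy, H⟩ := complexCase a b ha hb
  constructor
  · refine ⟨fun n => (x n).re, fun n => (y n).re, ?_, ?_, ?_⟩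
    · have := (Complex.continuous_re.tendsto 0).comp hx
      simpa [IsC0, Function.comp_def] using this
    · have := (Complex.continuous_re.tendsto 0).comp hy
      simpa [IsC0, Function.comp_def] using this
    · intro t ht0 ht1 u v hu hv η hη
      obtain ⟨k, hk⟩ := H t ht0 ht1 (fun n => (u n : ℂ)) (fun n => (v n : ℂ))
        (by have := (Complex.continuous_ofReal.tendsto 0).comp hu; simpa [IsC0, Function.comp_def] using this)
        (by have := (Complex.continuous_ofReal.tendsto 0).comp hv; simpa [IsC0, Function.comp_def] using this) η hη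
      refine ⟨k, fun n => ?_⟩
      obtain ⟨h1, h2⟩ := hk n
      rw [rol_iterate, rol_iterate]
      constructor
      · refine lt_of_le_of_lt ?_ h1
        have := Complex.abs_re_le_norm
          (((Real.exp ((k : ℝ) * (a + t)) : ℝ) : ℂ) * x (n + k) - (u n : ℂ))
        rw [Complex.sub_re, Complex.re_ofReal_mul, Complex.ofReal_re] at this
        exact this
      · refine lt_of_le_of_lt ?_ h2
        have := Complex.abs_re_le_norm
          (((Real.exp ((k : ℝ) * (b + takagi t)) : ℝ) : ℂ) * y (n + k) - (v n : ℂ))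
        rw [Complex.sub_re, Complex.re_ofReal_mul, Complex.ofReal_re] at this
        exact this
  · refine ⟨x, y, hx, hy, ?_⟩
    intro t ht0 ht1 u v hu hv η hη
    obtain ⟨k, hk⟩ := H t ht0 ht1 u v hu hv η hη
    refine ⟨k, fun n => ?_⟩
    rw [rol_iterate, rol_iterate]
    exact hk n

end Pool.Agent.Results.MP_c0f49b_an.TakagiCommon
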